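import Mathlib
import Pool.Agent.Lib.helper25.DegQ1
import Pool.Agent.Lib.helper25.DegQ2

set_option autoImplicit false

namespace Pool.Agent.Results.MP_f5651a_an.Both

open Filter Topology

/-- `F` is a functional of degree `m`: on every line it is, at rational parameters, a polynomial
of degree at most `m`. -/
def OfDegree {E : Type} [NormedAddCommGroup E] [NormedSpace ℝ E] (m : ℕ) (F : E → ℝ) : Prop :=
  ∀ x₀ h₀ : E, ∃ a : ℕ → ℝ, ∀ t : ℚ,
    F (x₀ + (t : ℝ) • h₀) = ∑ i ∈ Finset.range (m + 1), a i * (t : ℝ) ^ i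

theorem result :
    (¬ ∀ (E : Type) [NormedAddCommGroup E] [NormedSpace ℝ E] [CompleteSpace E] (m : ℕ)
        (F : E → ℝ), 1 ≤ m → OfDegree m F → ¬ Continuous F →
        ∃ x : ℕ → E, Tendsto x atTop (𝓝 0) ∧
          ∀ y : E, Tendsto (fun n => |F (x n + y)|) atTop atTop) ∧
    (∀ (E : Type) [NormedAddCommGroup E] [NormedSpace ℝ E] [CompleteSpace E] (m : ℕ)
        (F : E → ℝ), 1 ≤ m → OfDegree m F → ¬ Continuous F →
        ∃ x : ℕ → E, Tendsto x atTop (𝓝 0) ∧
          ∀ (y : E) (M : ℝ), ∃ᶠ n in atTop, M ≤ |F (x n + y)|) := by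
  constructor
  · intro h
    obtain ⟨B, hs, hc, H⟩ := Pool.Agent.Lib.H25DegQ1.counter (BoundedContinuousFunction ℕ ℝ)
      Pool.Agent.Lib.H25DegQ1.card_le Pool.Agent.Lib.H25DegQ1.rank_ge
    obtain ⟨x, hx, hy⟩ := h _ 2 (fun x => B x x) (by norm_num) (fun x₀ h₀ =>
      ⟨fun i => if i = 0 then B x₀ x₀ else if i = 1 then 2 * B x₀ h₀ else B h₀ h₀, fun t => by
        simp only [map_add, map_smul, LinearMap.add_apply, LinearMap.smul_apply, hs h₀ x₀,
          Finset.sum_range_succ, smul_eq_mul]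
        simp
        ring⟩) hc
    obtain ⟨y, hy'⟩ := H x hx
    exact hy' (hy y)
  · intro E _ _ _ m F _ hF hc
    refine Pool.Agent.Lib.H25DegQ2.main m F (fun x h => ?_) hc
    obtain ⟨a, ha⟩ := hF x h
    refine ⟨∑ i ∈ Finset.range (m + 1), Polynomial.C (a i) * Polynomial.X ^ i, ?_, fun t => ?_⟩
    · refine Polynomial.natDegree_sum_le_of_forall_le _ _ fun i hi => ?_
      exact (Polynomial.natDegree_C_mul_X_pow_le _ _).trans
        (Nat.lt_succ_iff.1 (Finset.mem_range.1 hi))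
    · rw [ha, Polynomial.eval_finsetSum]
      simp

end Pool.Agent.Results.MP_f5651a_an.Both
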